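import Pool.Agent.W955.SN.Mem

/-!
# Testing an upper bound on the tensor spectral norm is `∀ℝ`-complete

Sketch of the hardness proof.  Start from a system of quadratic equations on a bounded box (the
`∃ℝ`-complete problem of the library; by the gap theorem, if the system has no solution then the
sum of the squares of its equations is at least `2^(-2^L)` on the box, `L` linear in the size).
Add variables `u_0, …, u_N` with the equations `u_0 = 1/8`, `u_{i+1} = u_i²`.  The quartic
`H = ∑ (equations)² + u_N⁴ - u_N²` satisfies `H ≥ -2^(-2^(N+1))` everywhere (the squares of the
chain force `u_N²` to be that small), so a point with `H < 0` makes all the equations hold up to a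
doubly exponentially small error, and the system is solvable; conversely a solution gives
`H = u_N⁴ - u_N² < 0`.  So solvability is the *strict* inequality `min H < 0`, and the homogenised
form of `H` is a difference of squares of sparse quadratic forms.  The identity
`(a+b+c)² = 3(a²+b²+c²) - (a-b)² - (b-c)² - (a-c)²` and its relatives write `C |w|⁴ - H(w)`
as a sum `∑ B_k(w,w)²` of squares of explicit quadratic forms with integer coefficients.  Finally
the tensor `∑ z_k B_k(x,y) + z_0 √M ⟨x,y⟩` with `M` a large square has
`spectral norm² = max_w ∑ B_k(w,w)² + M`: the last summand forces `y = ± x` at the maximum.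
-/

namespace Pool.Agent.Results.MP_50cd9e_lc.SpectralNormComplete

open Pool.Agent.NPC Pool.Agent.NPC.ER Pool.Agent.W955.SN Pool.Agent.NPC.W955SN

/-- SPECTRAL-NORM-BOUND is `∀ℝ`-complete and SPECTRAL-NORM-EXCEED is `∃ℝ`-complete, under
polynomial-time many-one reductions. -/
theorem result : ARComplete (lang SpectralNormBound) ∧ ERComplete (lang SpectralNormExceed) :=
  ⟨⟨bound_mem, bound_hard⟩, ⟨exceed_mem, exceed_hard⟩⟩

end Pool.Agent.Results.MP_50cd9e_lc.SpectralNormComplete
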